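import Mathlib
import Pool.Agent.E8helper23.MO.Main

/-!
# Optimal sets for the first Dirichlet eigenvalue with an inclusion constraint are not monotone in the measure

The problem `(P_{D,m})`: minimise `λ₁(Ω)` among the quasi-open sets `Ω ⊇ D` with `|Ω| ≤ m`. An optimal set `Ω(D,m)` is a
minimiser with `|Ω| = m`. Question Q1 asks whether for all `D`, all `|D| ≤ m < m'` and every optimal set `Ω(D,m)` there
is an optimal set `Ω(D,m')` which contains it. We show that the answer is negative, in every dimension, even for bounded
open sets `D` and even if inclusions are only required up to sets of measure zero.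

The example: `D` is the union of two perforated cubes which are far apart. The first one is the unit cube, with thin
parallel slabs removed; the total measure `h₁` of these slabs is tiny. The second one is a large cube of side `4 b`,
also with thin parallel slabs removed, of total measure `T = 4^{d-1}`. The slabs are so numerous that, by the Poincaré
inequality on small cells, they make the first eigenvalue of `D` large, and it remains large for `D ∪ N` if `|N|` is
small.

* With the additional measure `h₁` the first cube can be filled, which gives `λ₁ ≤ C`. In the second cube such a small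
  amount has no effect. So each optimal set `Ω₀ = Ω(D, |D| + h₁)` uses at least a certain amount `r > 0` of measure
  outside `D` and far from the second cube (localisation formula).
* With the additional measure `T` the second cube can be filled, which gives `λ₁ ≤ C / (4b)²`, and this is smaller than
  the first eigenvalue of any set of measure at most `1 + T`.
* If there were optimal sets `Ω_t = Ω(D, |D| + t) ⊇ Ω₀` for all `t ∈ [h₁, T]` then they would waste the measure `r`: by
  the localisation formula `(Ω_t ∖ {x₀ < W}) ∪ D` has almost the same first eigenvalue, but its measure is smaller by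
  `r`. So the optimal value at `|D| + t - r` is almost the one at `|D| + t`. After finitely many steps it follows that
  the optimal value at `|D| + h₁` is almost the one at `|D| + T`, a contradiction.
* `D` itself is optimal at its own measure, as it is a finite union of boxes at positive distance.
-/

set_option autoImplicit false

namespace Pool.Agent.Results.MP_c499db_an.NotMonotoneH23

open MeasureTheory
open scoped ENNReal NNReal
open Pool.Agent.E8helper23.MO (Sp QuasiOpen IsOptimal)

/-- **The optimal sets `Ω(D,m)` are not monotone in `m`.** In every dimension `d` there is a bounded open set `D` such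
that

* there are `|D| ≤ m < m'` and an optimal set `Ω = Ω(D,m)` such that `|Ω ∖ Ω'| > 0` for all optimal sets
  `Ω' = Ω(D,m')`, so none of them contains `Ω`;
* there is `m₀ > |D|` such that **every** optimal set `Ω = Ω(D,m₀)` has this property for some `m' > m₀`. -/
theorem result (d : ℕ) (hd : 1 ≤ d) : ∃ D : Set (Sp d),
    IsOpen D ∧ QuasiOpen D ∧ Bornology.IsBounded D ∧ volume D < ⊤ ∧
    (∃ (m m' : ℝ≥0) (Ω : Set (Sp d)), volume D ≤ m ∧ m < m' ∧ IsOptimal D m Ω ∧
      ∀ Ω', IsOptimal D m' Ω' → 0 < volume (Ω \ Ω')) ∧
    ∃ m₀ : ℝ≥0, volume D < m₀ ∧ ∀ Ω, IsOptimal D m₀ Ω → ∃ m' : ℝ≥0, m₀ < m' ∧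
      ∀ Ω', IsOptimal D m' Ω' → 0 < volume (Ω \ Ω') := by
  obtain ⟨n, rfl⟩ : ∃ n, d = n + 1 := ⟨d - 1, by omega⟩
  obtain ⟨D, hDo, hDb, hDf, ⟨m, hm⟩, m₀, hm₀, h⟩ := Pool.Agent.E8helper23.MO.main n
  refine ⟨D, hDo, Pool.Agent.E8helper23.MO.IsOpen.quasiOpen hDo, hDb, lt_top_iff_ne_top.2 hDf, ?_,
    m₀, hm₀, fun Ω hΩ => ?_⟩
  · by_cases hex : ∃ Ω, IsOptimal D m₀ Ω
    · obtain ⟨Ω, hΩ⟩ := hex
      obtain ⟨m', hm', h'⟩ := h Ω hΩ
      exact ⟨m₀, m', Ω, hm₀.le, hm', hΩ, fun Ω' hΩ' => pos_iff_ne_zero.2 (h' Ω' hΩ')⟩
    · refine ⟨m, m₀, D, hm.2.2.1.le, ?_, hm, fun Ω' hΩ' => absurd ⟨Ω', hΩ'⟩ hex⟩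
      rw [← ENNReal.coe_lt_coe, ← hm.2.2.1]
      exact hm₀
  · obtain ⟨m', hm', h'⟩ := h Ω hΩ
    exact ⟨m', hm', fun Ω' hΩ' => pos_iff_ne_zero.2 (h' Ω' hΩ')⟩

end Pool.Agent.Results.MP_c499db_an.NotMonotoneH23
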